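import Pool.Agent.LibBruck.Good
import Pool.Agent.LibLRFix.Core

/-!
# Left reversible semigroups with one relatively compact orbit in each invariant set
-/

open Filter Topology Set

namespace Pool.Agent.Mau45

open Pool.Agent.LRFix Pool.Agent.Bruck

variable {E : Type*} [NormedAddCommGroup E] [NormedSpace ℝ E]

/-- Topological left reversibility. -/
def LeftReversible (S : Type*) [Semigroup S] [TopologicalSpace S] : Prop :=
  ∀ a b : S, (closure (range fun s => a * s) ∩ closure (range fun s => b * s)).Nonempty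

variable {S : Type*} [Semigroup S] [TopologicalSpace S]

/-- Approximation of a point of the closure of `a S` on a compact set. -/
lemma exists_approx {K : Set E} {f : S → E → E} (hf : Action K f) {O : Set E} (hOK : O ⊆ K)
    (hO : IsCompact O) {a r : S} (hr : r ∈ closure (range fun s => a * s)) {ε : ℝ} (hε : 0 < ε) :
    ∃ c, ∀ x ∈ O, ‖f (a * c) x - f r x‖ < ε := by
  have hε3 : 0 < ε / 3 := by linarith
  obtain ⟨t, htO, htf, htc⟩ := hO.finite_cover_balls hε3
  have hopen : (⋂ y ∈ t, {s : S | ‖f s y - f r y‖ < ε / 3}) ∈ 𝓝 r := by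
    rw [Filter.biInter_mem htf]
    intro y hy
    have h1 : Continuous fun s => ‖f s y - f r y‖ :=
      ((hf.cont y (hOK (htO hy))).sub continuous_const).norm
    have h2 := h1.continuousAt (x := r)
    apply h2.eventually_lt_const
    simpa using hε3
  obtain ⟨_, hs, c, rfl⟩ := mem_closure_iff_nhds.1 hr _ hopen
  refine ⟨c, fun x hx => ?_⟩
  obtain ⟨y, hy, hxy⟩ := mem_iUnion₂.1 (htc hx)
  rw [Metric.mem_ball, dist_eq_norm] at hxy
  have h3 := mem_iInter₂.1 hs y hy
  simp only [mem_setOf_eq] at h3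
  have h4 := (hf.ne (a * c)).ne x (hOK hx) y (hOK (htO hy))
  have h5 := (hf.ne r).ne y (hOK (htO hy)) x (hOK hx)
  rw [norm_sub_rev y x] at h5
  calc ‖f (a * c) x - f r x‖
      = ‖(f (a * c) x - f (a * c) y) + (f (a * c) y - f r y) + (f r y - f r x)‖ := by
        congr 1; abel
    _ ≤ ‖f (a * c) x - f (a * c) y‖ + ‖f (a * c) y - f r y‖ + ‖f r y - f r x‖ := norm_add₃_le
    _ < ε := by linarith

theorem fixed_of_compact (hrev : LeftReversible S) {K : Set E} (hK : WeaklyCompact K)
    (hne : K.Nonempty) (hconv : Convex ℝ K) {f : S → E → E} (hf : Action K f)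
    (hcomp : ∀ C ⊆ K, C.Nonempty → IsClosed C → Convex ℝ C → (∀ s, ∀ x ∈ C, f s x ∈ C) →
      ∃ O ⊆ C, O.Nonempty ∧ IsCompact O ∧ ∀ s, ∀ y ∈ O, f s y ∈ O) :
    ∃ x ∈ K, ∀ s, f s x = x := by
  classical
  rcases isEmpty_or_nonempty S with hemp | ⟨⟨s₀⟩⟩
  · obtain ⟨x, hx⟩ := hne
    exact ⟨x, hx, fun s => hemp.elim s⟩
  obtain ⟨M, hMK, hMne, hMc, hMconv, hMinv', hMmin⟩ := exists_min_family hK hne hconv
    (range f) (by rintro _ ⟨s, rfl⟩; exact (hf.ne s).maps)
  have hMinv : ∀ s, ∀ x ∈ M, f s x ∈ M := fun s => hMinv' _ ⟨s, rfl⟩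
  obtain ⟨O₁, hO₁M, hO₁ne, hO₁c, hO₁inv⟩ := hcomp M hMK hMne hMc hMconv hMinv
  -- minimal compact invariant sets
  let 𝒪 : Set (Set E) := {O | O ⊆ M ∧ O.Nonempty ∧ IsCompact O ∧ ∀ s, ∀ y ∈ O, f s y ∈ O}
  obtain ⟨O, -, hO⟩ := zorn_superset_nonempty 𝒪 (by
    intro c hcF hchain hcne
    have hne' : Nonempty c := hcne.to_subtype
    refine ⟨⋂₀ c, ⟨?_, ?_, ?_, ?_⟩, fun s hs => sInter_subset_of_mem hs⟩
    · obtain ⟨C, hC⟩ := hcne
      exact (sInter_subset_of_mem hC).trans (hcF hC).1
    · rw [sInter_eq_iInter]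
      apply IsCompact.nonempty_iInter_of_directed_nonempty_isCompact_isClosed
      · intro A B
        rcases hchain.total A.2 B.2 with h | h
        · exact ⟨A, Subset.rfl, h⟩
        · exact ⟨B, h, Subset.rfl⟩
      · exact fun C => (hcF C.2).2.1
      · exact fun C => (hcF C.2).2.2.1
      · exact fun C => (hcF C.2).2.2.1.isClosed
    · obtain ⟨C, hC⟩ := hcne
      exact (hcF hC).2.2.1.of_isClosed_subset
        (isClosed_sInter fun C hC => (hcF hC).2.2.1.isClosed) (sInter_subset_of_mem hC)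
    · intro s y hy C hC
      exact (hcF hC).2.2.2 s y (hy C hC)) _
    (show O₁ ∈ 𝒪 from ⟨hO₁M, hO₁ne, hO₁c, hO₁inv⟩)
  obtain ⟨hOM, hOne, hOcomp, hOinv⟩ := hO.prop
  have hOmin : ∀ O' ⊆ O, O'.Nonempty → IsCompact O' → (∀ s, ∀ y ∈ O', f s y ∈ O') → O' = O :=
    fun O' h h1 h2 h3 => hO.eq_of_subset ⟨h.trans hOM, h1, h2, h3⟩ h
  have hOK : O ⊆ K := hOM.trans hMK
  have hcontf : ∀ s, ContinuousOn (f s) O := by
    intro s
    rw [Metric.continuousOn_iff]
    intro y hy ε hε
    refine ⟨ε, hε, fun z hz hzy => lt_of_le_of_lt ?_ hzy⟩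
    rw [dist_eq_norm, dist_eq_norm]
    exact (hf.ne s).ne z (hOK hz) y (hOK hy)
  have himc : ∀ s, IsCompact (f s '' O) := fun s => hOcomp.image_of_continuousOn (hcontf s)
  -- points of the closure of `a S` map `O` into `a O`
  have hclos : ∀ a r : S, r ∈ closure (range fun s => a * s) → ∀ m ∈ O, f r m ∈ f a '' O := by
    intro a r hr m hm
    rw [← (himc a).isClosed.closure_eq, Metric.mem_closure_iff]
    intro ε hε
    obtain ⟨c, hc⟩ := exists_approx hf hOK hOcomp hr hε
    refine ⟨f (a * c) m, ⟨f c m, hOinv c m hm, (hf.mul a c m (hOK hm)).symm⟩, ?_⟩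
    rw [dist_eq_norm, norm_sub_rev]
    exact hc m hm
  have hsurj : ∀ a, O ⊆ f a '' O := by
    have hO' : (⋂ a : S, f a '' O) = O := by
      apply hOmin
      · intro y hy
        obtain ⟨z, hz, rfl⟩ := mem_iInter.1 hy s₀
        exact hOinv s₀ z hz
      · have : Nonempty S := ⟨s₀⟩
        apply IsCompact.nonempty_iInter_of_directed_nonempty_isCompact_isClosed
        · intro a b
          obtain ⟨r, hra, hrb⟩ := hrev a b
          refine ⟨r, ?_, ?_⟩
          · rintro _ ⟨z, hz, rfl⟩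
            exact hclos a r hra z hz
          · rintro _ ⟨z, hz, rfl⟩
            exact hclos b r hrb z hz
        · exact fun a => hOne.image _
        · exact himc
        · exact fun a => (himc a).isClosed
      · have hcl : IsClosed (⋂ a : S, f a '' O) := isClosed_iInter fun a => (himc a).isClosed
        refine hOcomp.of_isClosed_subset hcl ?_
        intro y hy
        obtain ⟨z, hz, rfl⟩ := mem_iInter.1 hy s₀
        exact hOinv s₀ z hz
      · intro s y hy
        rw [mem_iInter]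
        intro a
        obtain ⟨r, hrs, hra⟩ := hrev s a
        rw [← (himc a).isClosed.closure_eq, Metric.mem_closure_iff]
        intro ε hε
        obtain ⟨c, hc⟩ := exists_approx hf hOK hOcomp hrs hε
        obtain ⟨z, hz, hzy⟩ := mem_iInter.1 hy c
        refine ⟨f r z, hclos a r hra z hz, ?_⟩
        rw [dist_eq_norm, ← hzy, ← hf.mul s c z (hOK hz)]
        exact hc z hz
    intro a
    nth_rewrite 1 [← hO']
    exact iInter_subset _ a
  -- all points of O coincide
  have hdist : ∀ ρ : ℝ, (∃ c ∈ M, ∀ y ∈ O, ‖c - y‖ ≤ ρ) → ∀ u ∈ O, ∀ v ∈ O, ‖u - v‖ ≤ ρ := by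
    rintro ρ ⟨c, hcM, hc⟩ u hu v hv
    have h1 : {w ∈ M | ∀ y ∈ O, ‖w - y‖ ≤ ρ} = M := by
      apply hMmin
      · exact fun w hw => hw.1
      · exact ⟨c, hcM, hc⟩
      · have : {w ∈ M | ∀ y ∈ O, ‖w - y‖ ≤ ρ} = M ∩ ⋂ y ∈ O, {w | ‖w - y‖ ≤ ρ} := by
          ext w
          simp
        rw [this]
        exact hMc.inter (isClosed_biInter fun y _ => isClosed_le (by fun_prop) continuous_const)
      · have : {w ∈ M | ∀ y ∈ O, ‖w - y‖ ≤ ρ} = M ∩ ⋂ y ∈ O, Metric.closedBall y ρ := by
          ext w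
          simp [Metric.mem_closedBall, dist_eq_norm]
        rw [this]
        exact hMconv.inter (convex_iInter₂ fun y _ => convex_closedBall y ρ)
      · rintro _ ⟨s, rfl⟩ w ⟨hwM, hw⟩
        refine ⟨hMinv s w hwM, fun y hy => ?_⟩
        obtain ⟨y', hy', rfl⟩ := hsurj s hy
        exact ((hf.ne s).ne w (hMK hwM) y' (hOK hy')).trans (hw y' hy')
    have h2 : u ∈ {w ∈ M | ∀ y ∈ O, ‖w - y‖ ≤ ρ} := by
      rw [h1]
      exact hOM hu
    exact h2.2 v hv
  have hdiam : Metric.diam O = 0 := by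
    by_contra hD
    set D := Metric.diam O with hDdef
    have hDpos : 0 < D := lt_of_le_of_ne Metric.diam_nonneg (Ne.symm hD)
    have hDd : ∀ u ∈ O, ∀ v ∈ O, ‖u - v‖ ≤ D := by
      intro u hu v hv
      rw [← dist_eq_norm]
      exact Metric.dist_le_diam_of_mem hOcomp.isBounded hu hv
    obtain ⟨t, htO, htf, htc⟩ := hOcomp.finite_cover_balls (show 0 < D / 4 by positivity)
    obtain ⟨t, rfl⟩ := htf.exists_finset_coe
    have htne : t.Nonempty := by
      obtain ⟨y, hy⟩ := hOne
      obtain ⟨z, hz, _⟩ := mem_iUnion₂.1 (htc hy)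
      exact ⟨z, hz⟩
    have hn : (0 : ℝ) < t.card := by exact_mod_cast htne.card_pos
    let c : E := ∑ z ∈ t, (1 / (t.card : ℝ)) • z
    have hcM : c ∈ M := by
      apply hMconv.sum_mem
      · intro z _
        positivity
      · rw [Finset.sum_const, nsmul_eq_mul]
        field_simp
      · intro z hz
        exact hOM (htO hz)
    have hc : ∀ y ∈ O, ‖c - y‖ ≤ D - 3 * D / (4 * t.card) := by
      intro y hy
      obtain ⟨z₀, hz₀, hyz⟩ := mem_iUnion₂.1 (htc hy)
      rw [Metric.mem_ball, dist_eq_norm, norm_sub_rev] at hyz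
      have hz₀t : z₀ ∈ t := hz₀
      have h1 : c - y = ∑ z ∈ t, (1 / (t.card : ℝ)) • (z - y) := by
        simp only [smul_sub, Finset.sum_sub_distrib, c, Finset.sum_const]
        congr 1
        rw [← Nat.cast_smul_eq_nsmul ℝ, smul_smul, mul_one_div_cancel hn.ne', one_smul]
      rw [h1]
      calc _ ≤ ∑ z ∈ t, ‖(1 / (t.card : ℝ)) • (z - y)‖ := norm_sum_le _ _
        _ = ∑ z ∈ t, (1 / (t.card : ℝ)) * ‖z - y‖ := by
            refine Finset.sum_congr rfl fun z _ => ?_
            rw [norm_smul, Real.norm_of_nonneg (by positivity)]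
        _ ≤ ∑ z ∈ t, (1 / (t.card : ℝ)) * (D - if z = z₀ then 3 * D / 4 else 0) := by
            refine Finset.sum_le_sum fun z hz => ?_
            gcongr
            split_ifs with h
            · rw [h]; linarith
            · rw [sub_zero]; exact hDd z (htO hz) y hy
        _ = D - 3 * D / (4 * t.card) := by
            rw [← Finset.mul_sum, Finset.sum_sub_distrib, Finset.sum_const, nsmul_eq_mul,
              Finset.sum_ite_eq' t z₀, if_pos hz₀t]
            field_simp
    have h2 := hdist _ ⟨c, hcM, hc⟩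
    have h3 : D ≤ D - 3 * D / (4 * t.card) := by
      apply Metric.diam_le_of_forall_dist_le
      · have h4 : 3 * D / (4 * t.card) ≤ D := by
          rw [div_le_iff₀ (by positivity)]
          have : (1 : ℝ) ≤ t.card := by exact_mod_cast htne.card_pos
          nlinarith
        linarith
      · intro u hu v hv
        rw [dist_eq_norm]
        exact h2 u hu v hv
    have h5 : 0 < 3 * D / (4 * t.card) := by positivity
    linarith
  obtain ⟨o, ho⟩ := hOne
  refine ⟨o, hOK ho, fun s => ?_⟩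
  have h6 : dist (f s o) o ≤ Metric.diam O :=
    Metric.dist_le_diam_of_mem hOcomp.isBounded (hOinv s o ho) ho
  rw [hdiam] at h6
  exact dist_le_zero.1 h6

end Pool.Agent.Mau45
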