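import Pool.Agent.LibMau45.Compact

/-!
# Permanence properties: coprecompact subsemigroups, length functions, dense subgroups
-/

open Filter Topology Set

namespace Pool.Agent.Mau45

open Pool.Agent.LRFix Pool.Agent.Bruck

variable {E : Type*} [NormedAddCommGroup E] [NormedSpace ℝ E]

/-- Bounded continuous pseudometrics on `S`, contracted by left multiplications, which do not see
right multiplications by elements of `T`. -/
structure Pseudo {S : Type*} [Semigroup S] [TopologicalSpace S] (T : Set S) (ρ : S → S → ℝ) :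
    Prop where
  self : ∀ s, ρ s s = 0
  symm : ∀ s t, ρ s t = ρ t s
  triangle : ∀ r s t, ρ r t ≤ ρ r s + ρ s t
  cont : Continuous fun p : S × S => ρ p.1 p.2
  bdd : ∃ C, ∀ s t, ρ s t ≤ C
  left : ∀ a s t, ρ (a * s) (a * t) ≤ ρ s t
  right : ∀ s, ∀ t ∈ T, ρ (s * t) s = 0

lemma pseudo_of_fixed {S : Type*} [Semigroup S] [TopologicalSpace S] {K : Set E}
    (hbdd : Bornology.IsBounded K) {f : S → E → E} (hf : Action K f) {x : E} (hx : x ∈ K)
    {T : Set S} (hT : ∀ t ∈ T, f t x = x) : Pseudo T fun s t => ‖f s x - f t x‖ := by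
  have hc := hf.cont x hx
  obtain ⟨C, hC⟩ := Metric.isBounded_iff.1 hbdd
  refine ⟨fun s => by simp, fun s t => norm_sub_rev _ _, fun r s t => ?_, ?_,
    ⟨C, fun s t => ?_⟩, fun a s t => ?_, fun s t ht => ?_⟩
  · exact norm_sub_le_norm_sub_add_norm_sub _ _ _
  · exact ((hc.comp continuous_fst).sub (hc.comp continuous_snd)).norm
  · rw [← dist_eq_norm]
    exact hC ((hf.ne s).maps x hx) ((hf.ne t).maps x hx)
  · rw [hf.mul a s x hx, hf.mul a t x hx]
    exact (hf.ne a).ne _ ((hf.ne s).maps x hx) _ ((hf.ne t).maps x hx)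
  · change ‖f (s * t) x - f s x‖ = 0
    rw [hf.mul s t x hx, hT t ht, sub_self, norm_zero]

/-- Left reversible semigroups with a good subsemigroup which is coprecompact. -/
theorem good_coprecompact [CompleteSpace E] {S : Type*} [Semigroup S] [TopologicalSpace S]
    (T : Subsemigroup S) (hT : Good E T) (hrev : LeftReversible S)
    (h : ∀ ρ : S → S → ℝ, Pseudo (T : Set S) ρ → ∀ ε : ℝ, 0 < ε →
      ∃ F : Finset S, ∀ s, ∃ t ∈ F, ρ s t < ε) : Good E S := by
  intro K hK hne hconv f hf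
  rcases isEmpty_or_nonempty S with hemp | ⟨⟨s₀⟩⟩
  · obtain ⟨x, hx⟩ := hne
    exact ⟨x, hx, fun s => hemp.elim s⟩
  refine fixed_of_compact hrev hK hne hconv hf ?_
  intro C hCK hCne hCc hCconv hCinv
  have hfC : Action C f := hf.mono hCK hCinv
  obtain ⟨x, hx, hfx⟩ := hT C (hK.mono hCK hCc hCconv) hCne hCconv (fun s : T => f s)
    ⟨fun s => hfC.ne _, fun s t x hx => hfC.mul _ _ x hx,
      fun x hx => (hfC.cont x hx).comp continuous_subtype_val⟩
  have hP := pseudo_of_fixed (hK.isBounded.subset hCK) hfC hx (T := (T : Set S))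
    fun t ht => hfx ⟨t, ht⟩
  have htb : TotallyBounded (range fun s => f s x) := by
    rw [Metric.totallyBounded_iff]
    intro ε hε
    obtain ⟨F, hF⟩ := h _ hP ε hε
    refine ⟨(fun s => f s x) '' (F : Set S), F.finite_toSet.image _, ?_⟩
    rintro _ ⟨s, rfl⟩
    obtain ⟨t, ht, hst⟩ := hF s
    refine mem_iUnion₂.2 ⟨f t x, ⟨t, ht, rfl⟩, ?_⟩
    rw [Metric.mem_ball, dist_eq_norm]
    exact hst
  refine ⟨closure (range fun s => f s x), ?_, ⟨_, subset_closure ⟨s₀, rfl⟩⟩,
    htb.closure.isCompact_of_isClosed isClosed_closure, ?_⟩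
  · apply closure_minimal _ hCc
    rintro _ ⟨s, rfl⟩
    exact hCinv s x hx
  · intro s y hy
    have hyC : y ∈ C := (closure_minimal (by rintro _ ⟨s, rfl⟩; exact hCinv s x hx) hCc) hy
    rw [Metric.mem_closure_iff] at hy ⊢
    intro ε hε
    obtain ⟨_, ⟨t, rfl⟩, hyt⟩ := hy ε hε
    refine ⟨f (s * t) x, ⟨s * t, rfl⟩, lt_of_le_of_lt ?_ hyt⟩
    rw [dist_eq_norm, dist_eq_norm, hfC.mul s t x hx]
    exact (hfC.ne s).ne y hyC _ (hCinv t x hx)

/-- Dense subgroups of good topological groups. -/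
theorem good_dense [CompleteSpace E] {G : Type*} [Group G] [TopologicalSpace G]
    [IsTopologicalGroup G] (D : Subgroup G) (hD : Dense (D : Set G)) (hG : Good E G) :
    Good E D := by
  classical
  intro K hK hne hconv f hf
  have hKc : IsClosed K := hK.isClosed
  have hdi : IsDenseInducing (Subtype.val : D → G) := hD.isDenseInducing_val
  -- limits along `D`
  have hlim : ∀ x ∈ K, ∀ g : G, ∃ y, Tendsto (fun d : D => f d x) (comap Subtype.val (𝓝 g)) (𝓝 y) := by
    intro x hx g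
    have hne : (comap (Subtype.val : D → G) (𝓝 g)).NeBot := hdi.comap_nhds_neBot g
    apply cauchy_map_iff_exists_tendsto.1
    rw [Metric.cauchy_iff]
    refine ⟨hne.map _, fun ε hε => ?_⟩
    have h1 : Tendsto (fun d : D => f d x) (𝓝 1) (𝓝 (f 1 x)) := (hf.cont x hx).tendsto 1
    have h2 : {d : D | ‖f d x - f 1 x‖ < ε} ∈ 𝓝 (1 : D) := by
      have := h1 (Metric.ball_mem_nhds _ hε)
      simpa [mem_map, preimage, Metric.mem_ball, dist_eq_norm] using this
    rw [nhds_subtype_eq_comap, mem_comap] at h2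
    obtain ⟨V, hV, hVs⟩ := h2
    have h3 : Tendsto (fun p : G × G => p.2⁻¹ * p.1) (𝓝 (g, g)) (𝓝 1) := by
      have h4 : Continuous fun p : G × G => p.2⁻¹ * p.1 := by fun_prop
      have h5 := h4.tendsto (g, g)
      simpa using h5
    have h6 := h3 hV
    rw [mem_map, nhds_prod_eq, mem_prod_self_iff] at h6
    obtain ⟨W, hW, hWs⟩ := h6
    refine ⟨(fun d : D => f d x) '' (Subtype.val ⁻¹' W), image_mem_map (preimage_mem_comap hW), ?_⟩
    rintro _ ⟨d, hd, rfl⟩ _ ⟨d', hd', rfl⟩
    have h7 : d'⁻¹ * d ∈ {d : D | ‖f d x - f 1 x‖ < ε} := hVs (hWs (mk_mem_prod hd hd'))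
    have h8 : f d x = f d' (f (d'⁻¹ * d) x) := by rw [← hf.mul _ _ x hx, mul_inv_cancel_left]
    have h9 : f d' x = f d' (f 1 x) := by rw [← hf.mul _ _ x hx, mul_one]
    change dist (f d x) (f d' x) < ε
    rw [dist_eq_norm, h8, h9]
    exact lt_of_le_of_lt ((hf.ne d').ne _ ((hf.ne _).maps x hx) _ ((hf.ne _).maps x hx)) h7
  let F : G → E → E := fun g x => if x ∈ K then hdi.extend (fun d : D => f d x) g else x
  have hFv : ∀ g, ∀ x ∈ K, F g x = hdi.extend (fun d : D => f d x) g := fun g x hx => if_pos hx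
  have hFc : ∀ x ∈ K, Continuous fun g => F g x := by
    intro x hx
    have h1 : (fun g => F g x) = hdi.extend (fun d : D => f d x) := by
      funext g
      exact hFv g x hx
    rw [h1]
    exact hdi.continuous_extend (hlim x hx)
  have hFd : ∀ x ∈ K, ∀ d : D, F d x = f d x := by
    intro x hx d
    rw [hFv _ x hx]
    exact hdi.extend_eq_at (hf.cont x hx).continuousAt
  have hFK : ∀ g, ∀ x ∈ K, F g x ∈ K := by
    intro g x hx
    refine hD.induction (P := fun g => F g x ∈ K) ?_ (hKc.preimage (hFc x hx)) g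
    intro d hd
    rw [hFd x hx ⟨d, hd⟩]
    exact (hf.ne _).maps x hx
  have hFn : ∀ g, ∀ x ∈ K, ∀ y ∈ K, ‖F g x - F g y‖ ≤ ‖x - y‖ := by
    intro g x hx y hy
    refine hD.induction (P := fun g => ‖F g x - F g y‖ ≤ ‖x - y‖) ?_
      (isClosed_le ((hFc x hx).sub (hFc y hy)).norm continuous_const) g
    intro d hd
    rw [hFd x hx ⟨d, hd⟩, hFd y hy ⟨d, hd⟩]
    exact (hf.ne _).ne x hx y hy
  have hFcontOn : ∀ g, ContinuousOn (F g) K := by
    intro g
    rw [Metric.continuousOn_iff]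
    intro y hy ε hε
    refine ⟨ε, hε, fun z hz hzy => lt_of_le_of_lt ?_ hzy⟩
    rw [dist_eq_norm, dist_eq_norm]
    exact hFn g z hz y hy
  have hFm1 : ∀ d ∈ D, ∀ h, ∀ x ∈ K, F (d * h) x = F d (F h x) := by
    intro d hd h x hx
    have hc1 : Continuous fun h => F (d * h) x := (hFc x hx).comp (continuous_const.mul continuous_id)
    have hc2 : Continuous fun h => F d (F h x) :=
      (hFcontOn d).comp_continuous (hFc x hx) fun h => hFK h x hx
    refine hD.induction (P := fun h => F (d * h) x = F d (F h x)) ?_ (isClosed_eq hc1 hc2) h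
    intro d' hd'
    have h1 := hFd x hx (⟨d, hd⟩ * ⟨d', hd'⟩)
    have h2 := hFd x hx ⟨d', hd'⟩
    have h3 := hFd (f ⟨d', hd'⟩ x) ((hf.ne _).maps x hx) ⟨d, hd⟩
    change F (d * d') x = _ at h1
    change F d' x = _ at h2
    change F d _ = _ at h3
    rw [h1, h2, h3, hf.mul _ _ x hx]
  have hFm : ∀ g h, ∀ x ∈ K, F (g * h) x = F g (F h x) := by
    intro g h x hx
    have hc1 : Continuous fun g => F (g * h) x := (hFc x hx).comp (continuous_id.mul continuous_const)
    have hc2 : Continuous fun g => F g (F h x) := hFc _ (hFK h x hx)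
    refine hD.induction (P := fun g => F (g * h) x = F g (F h x)) ?_ (isClosed_eq hc1 hc2) g
    intro d hd
    exact hFm1 d hd h x hx
  obtain ⟨x, hx, hfx⟩ := hG K hK hne hconv F ⟨fun g => ⟨hFK g, hFn g⟩, hFm, hFc⟩
  exact ⟨x, hx, fun d => by rw [← hFd x hx d]; exact hfx d⟩

end Pool.Agent.Mau45
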