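import Pool.Agent.LibMau45.Core

/-!
# Topological forms of the extension and absorption properties
-/

open Filter Topology Set

namespace Pool.Agent.Mau45

open Pool.Agent.LRFix Pool.Agent.Bruck

variable {E : Type*} [NormedAddCommGroup E] [NormedSpace ℝ E]

variable {S : Type*} [Semigroup S] [TopologicalSpace S]

/-- The set `{a u : u ∈ T}`. -/
def coset (a : S) (T : Set S) : Set S := {r | ∃ u ∈ T, r = a * u}

lemma const_on_closure {K : Set E} {f : S → E → E} (hf : Action K f) {x c : E} (hx : x ∈ K)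
    {A : Set S} (h : ∀ r ∈ A, f r x = c) : ∀ r ∈ closure A, f r x = c := by
  intro r hr
  exact closure_minimal (t := {r | f r x = c}) h (isClosed_eq (hf.cont x hx) continuous_const) hr

lemma eq_of_coset {K : Set E} {f : S → E → E} (hf : Action K f) {x : E} (hx : x ∈ K) {T : Set S}
    (hT : ∀ t ∈ T, f t x = x) {a b : S} (h : (closure (coset a T) ∩ closure (coset b T)).Nonempty) :
    f a x = f b x := by
  obtain ⟨r, hra, hrb⟩ := h
  have h1 : ∀ c : S, ∀ r ∈ coset c T, f r x = f c x := by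
    rintro c _ ⟨u, hu, rfl⟩
    rw [hf.mul _ _ x hx, hT u hu]
  rw [← const_on_closure hf hx (h1 a) r hra, ← const_on_closure hf hx (h1 b) r hrb]

theorem good_absorb (T : Subsemigroup S) (hT : Good E T)
    (habs : ∀ s : S, (closure (coset s T) ∩ closure (T : Set S)).Nonempty) : Good E S := by
  intro K hK hne hconv f hf
  obtain ⟨x, hx, hfx⟩ := hT K hK hne hconv (fun s : T => f s)
    ⟨fun s => hf.ne _, fun s t x hx => hf.mul _ _ x hx,
      fun x hx => (hf.cont x hx).comp continuous_subtype_val⟩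
  refine ⟨x, hx, fun s => ?_⟩
  obtain ⟨r, hr1, hr2⟩ := habs s
  have h1 : ∀ r ∈ coset s (T : Set S), f r x = f s x := by
    rintro _ ⟨u, hu, rfl⟩
    rw [hf.mul _ _ x hx]
    exact congrArg _ (hfx ⟨u, hu⟩)
  have h2 : ∀ r ∈ (T : Set S), f r x = x := fun r hr => hfx ⟨r, hr⟩
  rw [← const_on_closure hf hx h1 r hr1, const_on_closure hf hx h2 r hr2]

/-- Extensions. -/
theorem good_ext (T : Subsemigroup S) (hT : Good E T)
    (hnorm : ∀ s : S, ∀ t ∈ T, (closure (coset (t * s) T) ∩ closure (coset s T)).Nonempty)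
    {Q : Type*} [Semigroup Q] [TopologicalSpace Q] (hQ : Good E Q) (φ : S → Q)
    (hmul : ∀ a b, φ (a * b) = φ a * φ b) (hquot : IsQuotientMap φ)
    (hker : ∀ s s', φ s = φ s' → (closure (coset s T) ∩ closure (coset s' T)).Nonempty) :
    Good E S := by
  intro K hK hne hconv f hf
  rcases isEmpty_or_nonempty S with hemp | ⟨⟨s₀⟩⟩
  · obtain ⟨x, hx⟩ := hne
    exact ⟨x, hx, fun s => hemp.elim s⟩
  have hact : Action K (fun s : T => f s) :=
    ⟨fun s => hf.ne _, fun s t x hx => hf.mul _ _ x hx,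
      fun x hx => (hf.cont x hx).comp continuous_subtype_val⟩
  obtain ⟨r, hr⟩ := hT.retr hK hconv hact
  set F : Set E := {x ∈ K | ∀ s : T, f s x = x} with hF
  have hFK : F ⊆ K := fun x hx => hx.1
  have hFT : ∀ x ∈ F, ∀ t ∈ (T : Set S), f t x = x := fun x hx t ht => hx.2 ⟨t, ht⟩
  have hFinv : ∀ s, ∀ x ∈ F, f s x ∈ F := by
    intro s x hx
    refine ⟨(hf.ne s).maps x hx.1, ?_⟩
    rintro ⟨t, ht⟩
    change f t (f s x) = f s x
    rw [← hf.mul t s x hx.1]
    exact eq_of_coset hf hx.1 (hFT x hx) (hnorm s t ht)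
  have hσ : ∀ q, ∃ s, φ s = q := hquot.surjective
  choose σ hσ using hσ
  have hwd : ∀ s s', φ s = φ s' → ∀ x ∈ F, f s x = f s' x := by
    intro s s' h x hx
    exact eq_of_coset hf hx.1 (hFT x hx) (hker s s' h)
  have hact2 : Action K (fun q x => f (σ q) (r x)) := by
    refine ⟨fun q => (hf.ne _).comp hr.toNE, ?_, ?_⟩
    · intro q q' x hx
      have hrx : r x ∈ F := hr.mem x hx
      have h1 : f (σ (q * q')) (r x) = f (σ q * σ q') (r x) :=
        hwd _ _ (by rw [hσ, hmul, hσ, hσ]) _ hrx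
      change f (σ (q * q')) (r x) = f (σ q) (r (f (σ q') (r x)))
      rw [h1, hf.mul _ _ _ hrx.1, hr.fix _ (hFinv _ _ hrx)]
    · intro x hx
      rw [hquot.continuous_iff]
      have h1 : (fun q => f (σ q) (r x)) ∘ φ = fun s => f s (r x) := by
        funext s
        exact hwd _ _ (by rw [hσ]) _ (hr.mem x hx)
      rw [h1]
      exact hf.cont _ (hr.mem x hx).1
  obtain ⟨x, hx, hfx⟩ := hQ K hK hne hconv _ hact2
  have hrx : r x ∈ F := hr.mem x hx
  have hxF : x ∈ F := by
    rw [← hfx (φ s₀)]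
    exact hFinv _ _ hrx
  refine ⟨x, hx, fun s => ?_⟩
  have h1 : f (σ (φ s)) (r x) = x := hfx (φ s)
  rw [hr.fix x hxF] at h1
  rw [← hwd (σ (φ s)) s (by rw [hσ]) x hxF, h1]

end Pool.Agent.Mau45
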