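import Pool.Agent.LibMau45.Core

/-!
# Special and general linear groups over nondiscrete topological fields
-/

open Filter Topology Set Matrix

namespace Pool.Agent.Mau45

section Group

variable {G : Type*} [Group G] [TopologicalSpace G] {T : Set G} {ρ : G → G → ℝ}

lemma Pseudo.nonneg (h : Pseudo T ρ) (s t : G) : 0 ≤ ρ s t := by
  have h1 := h.triangle s t s
  rw [h.self, h.symm t s] at h1
  linarith

lemma Pseudo.zero_of_mem (h : Pseudo T ρ) {t : G} (ht : t ∈ T) : ρ t 1 = 0 := by
  have := h.right 1 t ht
  rwa [one_mul] at this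

lemma Pseudo.zero_mul (h : Pseudo T ρ) {a b : G} (ha : ρ a 1 = 0) (hb : ρ b 1 = 0) :
    ρ (a * b) 1 = 0 := by
  refine le_antisymm ?_ (h.nonneg _ _)
  have h1 := h.triangle (a * b) a 1
  have h2 := h.left a b 1
  rw [mul_one] at h2
  linarith

lemma Pseudo.zero_inv (h : Pseudo T ρ) {a : G} (ha : ρ a 1 = 0) : ρ a⁻¹ 1 = 0 := by
  refine le_antisymm ?_ (h.nonneg _ _)
  have h2 := h.left a⁻¹ 1 a
  rw [mul_one, inv_mul_cancel, h.symm 1 a, ha] at h2
  exact h2

/-- The Mautner argument. -/
lemma Pseudo.zero_conj (h : Pseudo T ρ) {α : Type*} {l : Filter α} [l.NeBot] {g : G} {t : α → G}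
    (ht : ∀ᶠ a in l, t a ∈ T) (hg : Tendsto (fun a => t a * g * (t a)⁻¹) l (𝓝 1)) :
    ρ g 1 = 0 := by
  refine le_antisymm ?_ (h.nonneg _ _)
  have hc : Continuous fun s => ρ s 1 := h.cont.comp (continuous_id.prodMk continuous_const)
  have h1 : Tendsto (fun a => ρ (t a * g * (t a)⁻¹) 1) l (𝓝 0) := by
    have := (hc.tendsto 1).comp hg
    rwa [h.self] at this
  refine ge_of_tendsto h1 ?_
  filter_upwards [ht] with a ha
  have h2 : g = (t a)⁻¹ * (t a * g * (t a)⁻¹) * t a := by group
  have h3 := h.right ((t a)⁻¹ * (t a * g * (t a)⁻¹)) (t a) ha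
  rw [← h2] at h3
  have h4 := h.triangle g ((t a)⁻¹ * (t a * g * (t a)⁻¹)) 1
  have h5 := h.triangle ((t a)⁻¹ * (t a * g * (t a)⁻¹)) (t a)⁻¹ 1
  have h6 := h.left (t a)⁻¹ (t a * g * (t a)⁻¹) 1
  rw [mul_one] at h6
  have h7 := h.zero_inv (h.zero_of_mem ha)
  linarith

end Group

variable {F : Type*} [Field F] [TopologicalSpace F] [IsTopologicalRing F]
variable {n : Type*} [Fintype n] [DecidableEq n]

/-- The diagonal matrices of determinant one. -/
def diagSL (F : Type*) [Field F] (n : Type*) [Fintype n] [DecidableEq n] :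
    Subsemigroup (SpecialLinearGroup n F) where
  carrier := {g | ∃ D : n → F, (g : Matrix n n F) = diagonal D}
  mul_mem' := by
    rintro a b ⟨D, hD⟩ ⟨D', hD'⟩
    refine ⟨fun i => D i * D' i, ?_⟩
    change (a : Matrix n n F) * (b : Matrix n n F) = _
    rw [hD, hD', diagonal_mul_diagonal]

/-- The invertible diagonal matrices. -/
def diagGL (F : Type*) [Field F] (n : Type*) [Fintype n] [DecidableEq n] :
    Subsemigroup (GeneralLinearGroup n F) where
  carrier := {g | ∃ D : n → F, (g : Matrix n n F) = diagonal D}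
  mul_mem' := by
    rintro a b ⟨D, hD⟩ ⟨D', hD'⟩
    exact ⟨fun i => D i * D' i, by rw [Units.val_mul, hD, hD', diagonal_mul_diagonal]⟩

lemma diagSL_comm (a b : diagSL F n) : a * b = b * a := by
  obtain ⟨a, D, hD⟩ := a
  obtain ⟨b, D', hD'⟩ := b
  apply Subtype.ext
  change a * b = b * a
  apply Subtype.ext
  change (a : Matrix n n F) * (b : Matrix n n F) = (b : Matrix n n F) * (a : Matrix n n F)
  rw [hD, hD', diagonal_mul_diagonal, diagonal_mul_diagonal]
  congr 1
  funext i
  exact mul_comm _ _

lemma diagGL_comm (a b : diagGL F n) : a * b = b * a := by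
  obtain ⟨a, D, hD⟩ := a
  obtain ⟨b, D', hD'⟩ := b
  apply Subtype.ext
  change a * b = b * a
  apply Units.ext
  rw [Units.val_mul, Units.val_mul, hD, hD', diagonal_mul_diagonal, diagonal_mul_diagonal]
  congr 1
  funext i
  exact mul_comm _ _

/-- Transvections as elements of the special linear group. -/
def tv (i j : n) (h : i ≠ j) (c : F) : SpecialLinearGroup n F :=
  ⟨transvection i j c, det_transvection_of_ne i j h c⟩

lemma continuous_tv (i j : n) (h : i ≠ j) : Continuous (tv (F := F) i j h) := by
  apply Continuous.subtype_mk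
  unfold transvection
  refine continuous_const.add ?_
  exact continuous_matrix fun k l => by
    unfold Matrix.single
    simp only [Matrix.of_apply]
    split_ifs
    · exact continuous_id
    · exact continuous_const

/-- The diagonal element with entries `a` and `a⁻¹` at `i` and `j`. -/
lemma exists_dg (i j : n) (h : i ≠ j) (a : F) (ha : a ≠ 0) : ∃ t ∈ diagSL F n, ∀ c : F,
    t * tv i j h c * t⁻¹ = tv i j h (a * a * c) := by
  let D : n → F := Function.update (Function.update 1 i a) j a⁻¹
  have hDi : D i = a := by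
    simp only [D]
    rw [Function.update_of_ne h, Function.update_self]
  have hDj : D j = a⁻¹ := by
    simp only [D]
    rw [Function.update_self]
  have hdet : det (diagonal D) = 1 := by
    rw [det_diagonal]
    simp only [D]
    rw [Finset.prod_update_of_mem (Finset.mem_univ j), Finset.prod_update_of_mem]
    · simp [inv_mul_cancel₀ ha]
    · simp [h]
  refine ⟨⟨diagonal D, hdet⟩, ⟨D, rfl⟩, fun c => ?_⟩
  rw [mul_inv_eq_iff_eq_mul]
  apply Subtype.ext
  change diagonal D * transvection i j c = transvection i j (a * a * c) * diagonal D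
  unfold transvection
  rw [mul_add, add_mul, mul_one, one_mul]
  congr 1
  ext k l
  rw [diagonal_mul, mul_diagonal, Matrix.single_apply, Matrix.single_apply]
  split_ifs with hkl
  · obtain ⟨rfl, rfl⟩ := hkl
    rw [hDi, hDj]
    field_simp
  · simp

theorem zero_SL (hF : (𝓝[≠] (0 : F)).NeBot)
    {ρ : SpecialLinearGroup n F → SpecialLinearGroup n F → ℝ}
    (h : Pseudo (diagSL F n : Set (SpecialLinearGroup n F)) ρ) (g : SpecialLinearGroup n F) :
    ρ g 1 = 0 := by
  have htv : ∀ (i j : n) (hij : i ≠ j) (c : F), ρ (tv i j hij c) 1 = 0 := by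
    intro i j hij c
    choose! t ht htc using exists_dg (F := F) i j hij
    refine h.zero_conj (l := 𝓝[≠] (0 : F)) (t := t) ?_ ?_
    · filter_upwards [self_mem_nhdsWithin] with a ha
      exact ht a ha
    · have h1 : Tendsto (fun a : F => tv i j hij (a * a * c)) (𝓝[≠] (0 : F)) (𝓝 1) := by
        have h2 : Continuous fun a : F => tv i j hij (a * a * c) :=
          (continuous_tv i j hij).comp (by fun_prop)
        have h3 := (h2.tendsto 0).mono_left (nhdsWithin_le_nhds (s := {0}ᶜ))
        have h4 : tv i j hij (0 * 0 * c) = 1 := by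
          apply Subtype.ext
          change transvection i j (0 * 0 * c) = 1
          simp
        rwa [h4] at h3
      refine h1.congr' ?_
      filter_upwards [self_mem_nhdsWithin] with a ha
      exact (htc a ha c).symm
  let Q : Matrix n n F → Prop := fun M => ∃ s : SpecialLinearGroup n F, (s : Matrix n n F) = M ∧ ρ s 1 = 0
  have hQm : ∀ M M', Q M → Q M' → Q (M * M') := by
    rintro _ _ ⟨s, rfl, hs⟩ ⟨s', rfl, hs'⟩
    exact ⟨s * s', rfl, h.zero_mul hs hs'⟩
  have hQl : ∀ L : List (TransvectionStruct n F), Q (L.map TransvectionStruct.toMatrix).prod := by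
    intro L
    induction L with
    | nil => exact ⟨1, rfl, h.self 1⟩
    | cons a L ih =>
      rw [List.map_cons, List.prod_cons]
      exact hQm _ _ ⟨tv a.i a.j a.hij a.c, rfl, htv _ _ _ _⟩ ih
  obtain ⟨L, L', D, hM⟩ := Pivot.exists_list_transvec_mul_diagonal_mul_list_transvec
    (g : Matrix n n F)
  have hdet : det (diagonal D) = 1 := by
    have h1 := congrArg det hM
    rw [det_mul, det_mul, TransvectionStruct.det_toMatrix_prod,
      TransvectionStruct.det_toMatrix_prod, g.2] at h1
    simpa using h1.symm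
  have hQD : Q (diagonal D) := ⟨⟨diagonal D, hdet⟩, rfl, h.zero_of_mem ⟨D, rfl⟩⟩
  have hQg := hQm _ _ (hQm _ _ (hQl L) hQD) (hQl L')
  rw [← hM] at hQg
  obtain ⟨s, hs, hs1⟩ := hQg
  have : s = g := Subtype.ext hs
  rwa [← this]

theorem zero_GL (hF : (𝓝[≠] (0 : F)).NeBot)
    {ρ : GeneralLinearGroup n F → GeneralLinearGroup n F → ℝ}
    (h : Pseudo (diagGL F n : Set (GeneralLinearGroup n F)) ρ) (g : GeneralLinearGroup n F) :
    ρ g 1 = 0 := by
  have hcont : Continuous (SpecialLinearGroup.toGL : SpecialLinearGroup n F → GeneralLinearGroup n F) := by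
    fun_prop
  have hP : Pseudo (diagSL F n : Set (SpecialLinearGroup n F))
      fun s t => ρ (SpecialLinearGroup.toGL s) (SpecialLinearGroup.toGL t) := by
    refine ⟨fun s => h.self _, fun s t => h.symm _ _, fun r s t => h.triangle _ _ _, ?_, ?_, ?_, ?_⟩
    · exact h.cont.comp ((hcont.comp continuous_fst).prodMk (hcont.comp continuous_snd))
    · obtain ⟨C, hC⟩ := h.bdd
      exact ⟨C, fun s t => hC _ _⟩
    · intro a s t
      rw [map_mul, map_mul]
      exact h.left _ _ _
    · rintro s t ⟨D, hD⟩
      rw [map_mul]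
      exact h.right _ _ ⟨D, hD⟩
  have h1 := zero_SL hF hP
  rcases isEmpty_or_nonempty n with hn | ⟨⟨i⟩⟩
  · have h2 : g = 1 := by
      apply Units.ext
      apply Subsingleton.elim
    rw [h2]
    exact h.self 1
  · have hdg : det (g : Matrix n n F) ≠ 0 := by
      have := (Matrix.isUnit_iff_isUnit_det (g : Matrix n n F)).1 g.isUnit
      exact this.ne_zero
    let D : n → F := Function.update 1 i (det (g : Matrix n n F))
    have hD : det (diagonal D) = det (g : Matrix n n F) := by
      rw [det_diagonal]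
      simp only [D]
      rw [Finset.prod_update_of_mem (Finset.mem_univ i)]
      simp
    let d : GeneralLinearGroup n F := GeneralLinearGroup.mkOfDetNeZero (diagonal D) (by rw [hD]; exact hdg)
    have hdv : (d : Matrix n n F) = diagonal D := rfl
    have hdet : det ((g * d⁻¹ : GeneralLinearGroup n F) : Matrix n n F) = 1 := by
      have h3 : (g * d⁻¹ : GeneralLinearGroup n F) * d = g := by group
      have h4 := congrArg (fun x : GeneralLinearGroup n F => det (x : Matrix n n F)) h3
      simp only [Units.val_mul, det_mul] at h4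
      rw [hdv, hD] at h4
      rw [Units.val_mul, det_mul]
      exact mul_right_cancel₀ hdg (by rw [h4, one_mul])
    let s : SpecialLinearGroup n F := ⟨_, hdet⟩
    have h5 : SpecialLinearGroup.toGL s * d = g := by
      have h6 : SpecialLinearGroup.toGL s = g * d⁻¹ := by
        apply Units.ext
        rfl
      rw [h6]
      group
    have h7 := h1 s
    simp only [map_one] at h7
    rw [← h5]
    exact h.zero_mul h7 (h.zero_of_mem ⟨D, hdv⟩)

end Pool.Agent.Mau45
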