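import Pool.Agent.LibMau45.Mat

open Filter Topology Set

namespace Pool.Agent.Mau45

variable {G : Type*} [Group G] [TopologicalSpace G]

/-- The abstract Mautner argument: elements contracted to 1 by conjugations from `T`, and `T`
itself, topologically generate `G`. -/
theorem zero_mautner {T : Set G} {ρ : G → G → ℝ} (h : Pseudo T ρ)
    (hgen : Dense (Subgroup.closure {g : G | g ∈ T ∨ (1 : G) ∈ closure {r : G | ∃ t ∈ T,
      r = t * g * t⁻¹}} : Set G)) (g : G) : ρ g 1 = 0 := by
  have hsub : ∀ g ∈ Subgroup.closure {g : G | g ∈ T ∨ (1 : G) ∈ closure {r : G | ∃ t ∈ T,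
      r = t * g * t⁻¹}}, ρ g 1 = 0 := by
    intro g hg
    induction hg using Subgroup.closure_induction with
    | mem x hx =>
      rcases hx with hx | hx
      · exact h.zero_of_mem hx
      · have : (𝓝[{r : G | ∃ t ∈ T, r = t * x * t⁻¹}] (1 : G)).NeBot :=
          mem_closure_iff_nhdsWithin_neBot.1 hx
        have hch : ∀ r : G, ∃ t : G, r ∈ {r : G | ∃ t ∈ T, r = t * x * t⁻¹} →
            t ∈ T ∧ r = t * x * t⁻¹ := by
          intro r
          by_cases hr : r ∈ {r : G | ∃ t ∈ T, r = t * x * t⁻¹}
          · obtain ⟨t, ht, hrt⟩ := hr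
            exact ⟨t, fun _ => ⟨ht, hrt⟩⟩
          · exact ⟨1, fun h => absurd h hr⟩
        choose t ht using hch
        refine h.zero_conj (l := 𝓝[{r : G | ∃ t ∈ T, r = t * x * t⁻¹}] (1 : G)) (t := t) ?_ ?_
        · filter_upwards [self_mem_nhdsWithin] with a ha
          exact (ht a ha).1
        · have h1 : Tendsto (fun a : G => a) (𝓝[{r : G | ∃ t ∈ T, r = t * x * t⁻¹}] (1 : G))
              (𝓝 1) := tendsto_id.mono_left nhdsWithin_le_nhds
          refine h1.congr' ?_
          filter_upwards [self_mem_nhdsWithin] with a ha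
          exact (ht a ha).2
    | one => exact h.self 1
    | mul x y _ _ hx hy => exact h.zero_mul hx hy
    | inv x _ hx => exact h.zero_inv hx
  have hclosed : IsClosed {g : G | ρ g 1 = 0} :=
    isClosed_eq (h.cont.comp (continuous_id.prodMk continuous_const)) continuous_const
  have := hclosed.closure_subset_iff.2 (fun x hx => hsub x hx)
  exact this (hgen g)

end Pool.Agent.Mau45
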